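import Pool.Agent.Lib.MP_b07157_agU.Bridge
import Pool.Agent.Lib.MP_b07157_agH3.Main
import Pool.Agent.Lib.MP_b07157_agD5.B0
import Pool.Agent.Lib.MP_b07157_agD5.A2
import Pool.Agent.Lib.MP_b07157_agS.SMain
import Pool.Agent.Lib.MP_b07157_agM.TDefs

/-!
# Polynomials of degree at most three in three variables
-/

noncomputable section

namespace MPb07157

open MvPolynomial

namespace SE3

variable {n : ℕ}

/-- A polynomial of degree at most three whose derivatives of order at most two vanish at the
origin is a cubic form. -/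
theorem isHomogeneous_three {F : MvPolynomial (Fin n) ℂ} (hd : F.totalDegree ≤ 3)
    (h0 : coeff 0 F = 0) (h1 : ∀ i, coeff 0 (pderiv i F) = 0)
    (h2 : ∀ i j, coeff 0 (pderiv i (pderiv j F)) = 0) : F.IsHomogeneous 3 := by
  classical
  intro v hv
  have hle : v.degree ≤ 3 := by
    have h := le_totalDegree (mem_support_iff.2 hv)
    rw [Finsupp.degree_eq_sum]
    rw [Finsupp.sum_fintype _ _ (fun _ => rfl)] at h
    exact h.trans hd
  have hgoal : v.degree = 3 := by
    by_contra hne
    have hlt : v.degree < 3 := lt_of_le_of_ne hle hne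
    by_cases hv0 : v = 0
    · rw [hv0] at hv
      exact hv h0
    obtain ⟨i, hi⟩ : ∃ i, v i ≠ 0 := by
      by_contra hcon
      push Not at hcon
      exact hv0 (Finsupp.ext hcon)
    obtain ⟨w, hw⟩ : ∃ w : Fin n →₀ ℕ, v = w + Finsupp.single i 1 := by
      refine ⟨v - Finsupp.single i 1, ?_⟩
      rw [tsub_add_cancel_of_le]
      exact Finsupp.single_le_iff.2 (Nat.one_le_iff_ne_zero.2 hi)
    have hcw : coeff w (pderiv i F) ≠ 0 := by
      rw [coeff_pderiv, ← hw]
      exact mul_ne_zero hv (by exact_mod_cast Nat.succ_ne_zero (w i))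
    have hdw : w.degree + 1 = v.degree := by
      rw [hw, map_add, Finsupp.degree_single]
    by_cases hw0 : w = 0
    · rw [hw0] at hcw
      exact hcw (h1 i)
    obtain ⟨j, hj⟩ : ∃ j, w j ≠ 0 := by
      by_contra hcon
      push Not at hcon
      exact hw0 (Finsupp.ext hcon)
    obtain ⟨z, hz⟩ : ∃ z : Fin n →₀ ℕ, w = z + Finsupp.single j 1 := by
      refine ⟨w - Finsupp.single j 1, ?_⟩
      rw [tsub_add_cancel_of_le]
      exact Finsupp.single_le_iff.2 (Nat.one_le_iff_ne_zero.2 hj)
    have hcz : coeff z (pderiv j (pderiv i F)) ≠ 0 := by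
      rw [coeff_pderiv, ← hz]
      exact mul_ne_zero hcw (by exact_mod_cast Nat.succ_ne_zero (z j))
    have hdz : z.degree + 1 = w.degree := by
      rw [hz, map_add, Finsupp.degree_single]
    have hz0 : z = 0 := by
      have : z.degree = 0 := by omega
      exact (Finsupp.degree_eq_zero_iff z).1 this
    rw [hz0] at hcz
    exact hcz (h2 j i)
  rw [Finsupp.weight_apply, Finsupp.sum_fintype _ _ (fun _ => by simp)]
  rw [Finsupp.degree_eq_sum] at hgoal
  simpa using hgoal

theorem one_le_rank {A : Matrix (Fin n) (Fin n) ℂ} (h : A ≠ 0) : 1 ≤ A.rank := by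
  by_contra hcon
  apply h
  have h1 : A.rank = 0 := by omega
  have h2 : LinearMap.range A.mulVecLin = ⊥ := by
    rw [← Submodule.finrank_eq_zero (R := ℂ)]
    exact h1
  rw [LinearMap.range_eq_bot] at h2
  ext i j
  have h3 := congrFun (congrArg (fun l => l (Pi.single j 1)) h2) i
  simpa using h3

theorem smc_cubic {F : MvPolynomial (Fin 3) ℂ} (hF : F ≠ 0) (hh : F.IsHomogeneous 3) :
    SmcGlob F ∧ SmcLoc F := by
  have hc : CondThree F 3 := Or.inr (Or.inr (Or.inr (Or.inr (Or.inl (by norm_num)))))
  constructor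
  · intro s₀ hs hp
    exact (smc_ternary hF (by norm_num) hh hs (fun _ => hc) (Or.inl hp)).1
  · intro s₀ hs hp b hb
    have hbg : IsBernsteinSato F b := isBernsteinSato_of_form_homogeneous hh hb
    exact (smc_ternary hF (by norm_num) hh hs (fun _ => hc) (Or.inr hp)).1 b hbg

/-- **The strong monodromy conjecture, local version**, for the polynomials of degree at most three
in three variables. -/
theorem smcLoc_deg3 {f : MvPolynomial (Fin 3) ℂ} (hf : f ≠ 0) (h0 : coeff 0 f = 0)
    (hd : f.totalDegree ≤ 3) : SmcLoc f := by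
  classical
  by_cases h1 : ∃ i, coeff (Finsupp.single i 1) f ≠ 0
  · obtain ⟨i, hi⟩ := h1
    exact SU.smcLoc_smooth h0 hi
  push Not at h1
  by_cases h2 : SU.hess f = 0
  · refine (smc_cubic hf (isHomogeneous_three hd h0 (fun i => ?_) fun i j => ?_)).2
    · rw [coeff_pderiv, zero_add, h1, zero_mul]
    · exact congrFun (congrFun h2 i) j
  · exact SU.smcLoc_corank hf h0 (by have := one_le_rank h2; omega)

/-! ### Translation -/

/-- Translation as an automorphism. -/
def trE (p : Fin n → ℂ) : MvPolynomial (Fin n) ℂ ≃ₐ[ℂ] MvPolynomial (Fin n) ℂ :=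
  AlgEquiv.ofAlgHom (aeval fun i => X i + C (p i)) (aeval fun i => X i - C (p i))
    (by
      apply MvPolynomial.algHom_ext
      intro i
      rw [AlgHom.comp_apply, aeval_X, map_sub, aeval_X, AlgHom.id_apply, ← algebraMap_eq,
        AlgHom.commutes]
      ring)
    (by
      apply MvPolynomial.algHom_ext
      intro i
      rw [AlgHom.comp_apply, aeval_X, map_add, aeval_X, AlgHom.id_apply, ← algebraMap_eq,
        AlgHom.commutes]
      ring)

theorem trE_apply (p : Fin n → ℂ) (f : MvPolynomial (Fin n) ℂ) : trE p f = translate p f := by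
  unfold trE translate
  rw [AlgEquiv.ofAlgHom_apply]

theorem smcGlob_of_translate {f : MvPolynomial (Fin n) ℂ} (p : Fin n → ℂ)
    (h : SmcGlob (translate p f)) : SmcGlob f := by
  refine SmcGlob.of_polyEquivPow one_pos ⟨trE (-p), 1, one_ne_zero, ?_⟩ h
  rw [pow_one, map_one, one_mul, trE_apply]
  exact (translate_neg_translate p f).symm

theorem coeff_zero_tr (f : MvPolynomial (Fin n) ℂ) (p : Fin n → ℂ) :
    coeff 0 (translate p f) = eval p f := by
  have h : constantCoeff (translate p f) = eval p f := by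
    unfold translate
    rw [aeval_def, hom_eval₂]
    simp [eval_eq', eval₂_eq']
  rwa [constantCoeff_eq] at h

theorem eval_pderiv_translate (f : MvPolynomial (Fin n) ℂ) (p q : Fin n → ℂ) (i : Fin n) :
    eval q (pderiv i (translate p f)) = eval (q + p) (pderiv i f) := by
  rw [pderiv_translate, D5.eval_translate']

theorem hessAt_translate (f : MvPolynomial (Fin n) ℂ) (p q : Fin n → ℂ) :
    YG.hessAt (translate p f) q = YG.hessAt f (q + p) := by
  ext i j
  unfold YG.hessAt
  rw [Matrix.of_apply, Matrix.of_apply, pderiv_translate, pderiv_translate, D5.eval_translate']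

/-- Polynomials without zeros. -/
theorem smcGlob_of_ne {f : MvPolynomial (Fin n) ℂ} (hf : f ≠ 0) (h : ∀ p, eval p f ≠ 0) :
    SmcGlob f := by
  intro s₀ _ hp
  exfalso
  apply hp
  rw [← seriesAt_univ]
  exact seriesAt_mem_of_ne IsConstr.univ hf (fun p _ => h p) s₀

/-- **The strong monodromy conjecture, global version**, for the polynomials of degree at most three
in three variables. -/
theorem smcGlob_deg3
    (hcor : ∀ f : MvPolynomial (Fin 3) ℂ, f ≠ 0 → coeff 0 f = 0 →
      (∀ p, eval p f = 0 → (∀ i, eval p (pderiv i f) = 0) → 3 ≤ (YG.hessAt f p).rank + 2) →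
      SmcGlob f)
    {f : MvPolynomial (Fin 3) ℂ} (hf : f ≠ 0) (hd : f.totalDegree ≤ 3) : SmcGlob f := by
  classical
  by_cases hA : ∃ p, eval p f = 0 ∧ (∀ i, eval p (pderiv i f) = 0) ∧ YG.hessAt f p = 0
  · obtain ⟨p, h0, h1, h2⟩ := hA
    refine smcGlob_of_translate p (smc_cubic (translate_ne_zero hf p)
      (isHomogeneous_three ((D5.totalDegree_translate_le p f).trans hd) ?_ (fun i => ?_)
        fun i j => ?_)).1
    · rw [coeff_zero_tr, h0]
    · rw [pderiv_translate, coeff_zero_tr, h1]
    · rw [pderiv_translate, pderiv_translate, coeff_zero_tr]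
      exact congrFun (congrFun h2 i) j
  · push Not at hA
    by_cases hz : ∃ p, eval p f = 0
    · obtain ⟨p, hp⟩ := hz
      refine smcGlob_of_translate p (hcor _ (translate_ne_zero hf p) (by rw [coeff_zero_tr, hp])
        fun q hq0 hq1 => ?_)
      rw [hessAt_translate]
      have := one_le_rank (hA (q + p) (by rw [← D5.eval_translate']; exact hq0)
        (fun i => by rw [← eval_pderiv_translate]; exact hq1 i))
      omega
    · push Not at hz
      exact smcGlob_of_ne hf hz

end SE3

end MPb07157
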