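import Pool.Agent.Lib.MP_b07157_agSE.MtD
import Pool.Agent.Lib.MP_b07157_agSE.Deg3
import Pool.Agent.Lib.MP_b07157_agSF.Glob
import Pool.Agent.Lib.MP_b07157_agSD.Sqh
import Pool.Agent.Lib.MP_b07157_agT3.Main

/-!
# Surfaces with double points and triple points with reduced tangent cone
-/

noncomputable section

namespace MPb07157

open MvPolynomial

/-- **The strong monodromy conjecture, global version**, for the polynomials in three variables
whose critical zeros `p`, outside finitely many sets along which the conjecture is known, are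
ordinary multiple points along smooth germs, or double points (the Hessian matrix is not zero), or
triple points whose tangent cone is reduced. -/
theorem SmcGlob.of_surf {f : MvPolynomial (Fin 3) ℂ} (hf : f ≠ 0) (h0 : coeff 0 f = 0)
    {T : Set (Set (Fin 3 → ℂ))} (hT : T.Finite) (hTW : ∀ W ∈ T, IsConstr W ∧ MonoAlong f W)
    (hcov : ∀ p, eval p f = 0 → (∀ i, eval p (pderiv i f) = 0) →
      (∃ W ∈ T, p ∈ W) ∨ OrdMult f p ∨ YG.hessAt f p ≠ 0 ∨
        Squarefree (homogeneousComponent 3 (translate p f))) : SmcGlob f := by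
  classical
  obtain ⟨T₂, hT₂, hcov₂, hT₂W⟩ := exists_cover_ordMult hf
  obtain ⟨P, hP, hP1, hP2⟩ := SE3.triple_cover f
  refine SmcGlob.of_corank hf h0 ((hT.union hT₂).union (hP.image fun p => ({p} : Set (Fin 3 → ℂ))))
    ?_ fun p hp hc => ?_
  · rintro W ((hW | hW) | ⟨p, hp, rfl⟩)
    · exact hTW W hW
    · obtain ⟨h1, k, m, h2⟩ := hT₂W W hW
      exact ⟨h1, MonoAlong.of_sqhAlong hf h2⟩
    · refine ⟨isConstr_point p, MonoAlong.of_point hf fun _ _ => ?_⟩
      exact SmcLoc.of_triple (hP1 p hp).1 (hP1 p hp).2
  · have hord : OrdMult f p → ∃ W ∈ (T ∪ T₂) ∪ (fun p => ({p} : Set (Fin 3 → ℂ))) '' P, p ∈ W := by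
      intro h
      obtain ⟨W, hW, hpW⟩ := hcov₂ p h
      exact ⟨W, Or.inl (Or.inr hW), hpW⟩
    by_cases hH : YG.hessAt f p = 0
    · left
      rcases hcov p hp hc with ⟨W, hW, hpW⟩ | h | h | h
      · exact ⟨W, Or.inl (Or.inl hW), hpW⟩
      · exact hord h
      · exact absurd hH h
      · have hlow : ∀ o, constantCoeff (SE3.gen (translate p f) o) = 0 := by
          intro o
          rw [SE3.gen_translate, ← MB.eval_eq_constantCoeff]
          rcases o with _ | i | ⟨i, j⟩
          · exact hp
          · exact hc i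
          · exact congrFun (congrFun hH i) j
        rcases hP2 p hlow h with h1 | h1
        · exact ⟨{p}, Or.inr ⟨p, h1, rfl⟩, rfl⟩
        · exact hord h1
    · right
      have := SE3.one_le_rank hH
      omega

/-- **The strong monodromy conjecture, global version**, for all polynomials of degree at most three
in three variables. -/
theorem SmcGlob.of_deg3 {f : MvPolynomial (Fin 3) ℂ} (hf : f ≠ 0) (hd : f.totalDegree ≤ 3) :
    SmcGlob f :=
  SE3.smcGlob_deg3 (fun _ hf h0 h => SmcGlob.of_corank hf h0 (T := ∅) Set.finite_empty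
    (fun _ hW => absurd hW (Set.notMem_empty _)) fun p hp hc => Or.inr (h p hp hc)) hf hd

/-- **The strong monodromy conjecture, local version**, for all polynomials of degree at most three
in three variables. -/
theorem SmcLoc.of_deg3 {f : MvPolynomial (Fin 3) ℂ} (hf : f ≠ 0) (h0 : coeff 0 f = 0)
    (hd : f.totalDegree ≤ 3) : SmcLoc f := SE3.smcLoc_deg3 hf h0 hd

end MPb07157
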