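import Pool.Agent.Lib.MP_b07157_agSE.Deg3
import Pool.Agent.Lib.MP_b07157_agT3.Main

/-!
# Polynomials of degree at most four in three variables
-/

noncomputable section

namespace MPb07157

open MvPolynomial

namespace SE4

variable {n : ℕ}

/-- The terms of degree at most two. -/
theorem low_of_derivatives {F : MvPolynomial (Fin n) ℂ} (h0 : coeff 0 F = 0)
    (h1 : ∀ i, coeff 0 (pderiv i F) = 0) (h2 : ∀ i j, coeff 0 (pderiv i (pderiv j F)) = 0) :
    ∀ j < 3, homogeneousComponent j F = 0 := by
  classical
  intro j hj
  ext v
  rw [coeff_homogeneousComponent, coeff_zero]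
  split_ifs with hvj
  swap
  · rfl
  have hle : v.degree ≤ 2 := by omega
  by_contra hv
  by_cases hv0 : v = 0
  · rw [hv0] at hv
    exact hv h0
  obtain ⟨i, hi⟩ : ∃ i, v i ≠ 0 := by
    by_contra hcon
    push Not at hcon
    exact hv0 (Finsupp.ext hcon)
  obtain ⟨w, hw⟩ : ∃ w : Fin n →₀ ℕ, v = w + Finsupp.single i 1 := by
    refine ⟨v - Finsupp.single i 1, ?_⟩
    rw [tsub_add_cancel_of_le]
    exact Finsupp.single_le_iff.2 (Nat.one_le_iff_ne_zero.2 hi)
  have hcw : coeff w (pderiv i F) ≠ 0 := by
    rw [coeff_pderiv, ← hw]
    exact mul_ne_zero hv (by exact_mod_cast Nat.succ_ne_zero (w i))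
  have hdw : w.degree + 1 = v.degree := by
    rw [hw, map_add, Finsupp.degree_single]
  by_cases hw0 : w = 0
  · rw [hw0] at hcw
    exact hcw (h1 i)
  obtain ⟨l, hl⟩ : ∃ l, w l ≠ 0 := by
    by_contra hcon
    push Not at hcon
    exact hw0 (Finsupp.ext hcon)
  obtain ⟨z, hz⟩ : ∃ z : Fin n →₀ ℕ, w = z + Finsupp.single l 1 := by
    refine ⟨w - Finsupp.single l 1, ?_⟩
    rw [tsub_add_cancel_of_le]
    exact Finsupp.single_le_iff.2 (Nat.one_le_iff_ne_zero.2 hl)
  have hcz : coeff z (pderiv l (pderiv i F)) ≠ 0 := by
    rw [coeff_pderiv, ← hz]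
    exact mul_ne_zero hcw (by exact_mod_cast Nat.succ_ne_zero (z l))
  have hdz : z.degree + 1 = w.degree := by
    rw [hz, map_add, Finsupp.degree_single]
  have hz0 : z = 0 := by
    have : z.degree = 0 := by omega
    exact (Finsupp.degree_eq_zero_iff z).1 this
  rw [hz0] at hcz
  exact hcz (h2 l i)

/-- A polynomial of degree at most four without terms of degree at most three is a form of degree
four. -/
theorem isHomogeneous_four {F : MvPolynomial (Fin n) ℂ} (hd : F.totalDegree ≤ 4)
    (low : ∀ j < 4, homogeneousComponent j F = 0) : F.IsHomogeneous 4 := by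
  have h1 : F = homogeneousComponent 4 F := by
    conv_lhs => rw [← sum_homogeneousComponent F]
    rcases Nat.lt_or_ge F.totalDegree 4 with h | h
    · rw [Finset.sum_eq_zero fun j hj => low j (by rw [Finset.mem_range] at hj; omega),
        homogeneousComponent_eq_zero 4 F h]
    · have h4 : F.totalDegree = 4 := le_antisymm hd h
      rw [h4, Finset.sum_range_succ, Finset.sum_eq_zero fun j hj => low j (Finset.mem_range.1 hj),
        zero_add]
  rw [h1]
  exact homogeneousComponent_isHomogeneous 4 F

theorem smc_quartic {F : MvPolynomial (Fin 3) ℂ} (hF : F ≠ 0) (hh : F.IsHomogeneous 4) :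
    SmcGlob F ∧ SmcLoc F := by
  have hc : CondThree F 4 := Or.inr (Or.inr (Or.inr (Or.inr (Or.inl (by norm_num)))))
  constructor
  · intro s₀ hs hp
    exact (smc_ternary hF (by norm_num) hh hs (fun _ => hc) (Or.inl hp)).1
  · intro s₀ hs hp b hb
    have hbg : IsBernsteinSato F b := isBernsteinSato_of_form_homogeneous hh hb
    exact (smc_ternary hF (by norm_num) hh hs (fun _ => hc) (Or.inr hp)).1 b hbg

/-- **The strong monodromy conjecture, local version**, for the polynomials of degree at most four
in three variables whose multiplicity at the origin is not three or whose tangent cone is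
reduced. -/
theorem smcLoc_deg4 {f : MvPolynomial (Fin 3) ℂ} (hf : f ≠ 0) (h0 : coeff 0 f = 0)
    (hd : f.totalDegree ≤ 4) (h3 : (∀ j < 3, homogeneousComponent j f = 0) →
      homogeneousComponent 3 f ≠ 0 → Squarefree (homogeneousComponent 3 f)) : SmcLoc f := by
  classical
  by_cases h1 : ∃ i, coeff (Finsupp.single i 1) f ≠ 0
  · obtain ⟨i, hi⟩ := h1
    exact SU.smcLoc_smooth h0 hi
  push Not at h1
  by_cases h2 : SU.hess f = 0
  · have low : ∀ j < 3, homogeneousComponent j f = 0 := by
      refine low_of_derivatives h0 (fun i => ?_) fun i j => ?_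
      · rw [coeff_pderiv, zero_add, h1, zero_mul]
      · exact congrFun (congrFun h2 i) j
    by_cases h4 : homogeneousComponent 3 f = 0
    · refine (smc_quartic hf (isHomogeneous_four hd fun j hj => ?_)).2
      rcases Nat.lt_or_ge j 3 with h | h
      · exact low j h
      · have : j = 3 := by omega
        rw [this, h4]
    · exact SmcLoc.of_triple low (h3 low h4)
  · exact SU.smcLoc_corank hf h0 (by have := SE3.one_le_rank h2; omega)

/-- **The strong monodromy conjecture, global version**, for the polynomials of degree at most four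
in three variables whose tangent cones at the points of multiplicity three are reduced. -/
theorem smcGlob_deg4
    (hM : ∀ f : MvPolynomial (Fin 3) ℂ, f ≠ 0 → coeff 0 f = 0 →
      (∀ p, eval p f = 0 → (∀ i, eval p (pderiv i f) = 0) →
        YG.hessAt f p ≠ 0 ∨ Squarefree (homogeneousComponent 3 (translate p f))) → SmcGlob f)
    {f : MvPolynomial (Fin 3) ℂ} (hf : f ≠ 0) (hd : f.totalDegree ≤ 4)
    (h3 : ∀ p, (∀ j < 3, homogeneousComponent j (translate p f) = 0) →
      homogeneousComponent 3 (translate p f) ≠ 0 →
        Squarefree (homogeneousComponent 3 (translate p f))) : SmcGlob f := by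
  classical
  by_cases hA : ∃ p, ∀ j < 4, homogeneousComponent j (translate p f) = 0
  · obtain ⟨p, h0⟩ := hA
    exact SE3.smcGlob_of_translate p (smc_quartic (translate_ne_zero hf p)
      (isHomogeneous_four ((D5.totalDegree_translate_le p f).trans hd) h0)).1
  · push Not at hA
    by_cases hz : ∃ p, eval p f = 0
    · obtain ⟨p, hp⟩ := hz
      refine SE3.smcGlob_of_translate p (hM _ (translate_ne_zero hf p)
        (by rw [SE3.coeff_zero_tr, hp]) fun q hq0 hq1 => ?_)
      by_cases h2 : YG.hessAt (translate p f) q = 0
      · right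
        rw [SE3.hessAt_translate] at h2
        have e1 : translate q (translate p f) = translate (q + p) f := by
          unfold translate
          rw [← AlgHom.comp_apply, comp_aeval]
          congr 2
          funext i
          rw [map_add, aeval_X, ← algebraMap_eq, AlgHom.commutes, Pi.add_apply, map_add,
            algebraMap_eq]
          ring
        rw [e1]
        have low : ∀ j < 3, homogeneousComponent j (translate (q + p) f) = 0 := by
          refine low_of_derivatives ?_ (fun i => ?_) fun i j => ?_
          · rw [SE3.coeff_zero_tr, ← D5.eval_translate']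
            exact hq0
          · rw [pderiv_translate, SE3.coeff_zero_tr, ← SE3.eval_pderiv_translate]
            exact hq1 i
          · rw [pderiv_translate, pderiv_translate, SE3.coeff_zero_tr]
            exact congrFun (congrFun h2 i) j
        refine h3 _ low fun h4 => ?_
        obtain ⟨j, hj, hj'⟩ := hA (q + p)
        apply hj'
        rcases Nat.lt_or_ge j 3 with h | h
        · exact low j h
        · have : j = 3 := by omega
          rw [this, h4]
      · exact Or.inl h2
    · push Not at hz
      exact SE3.smcGlob_of_ne hf hz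

end SE4

end MPb07157
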