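import Pool.Agent.Lib.MP_b07157_agSE.MtC
import Pool.Agent.Lib.MP_b07157_agSC.OrdE
import Pool.Agent.Lib.MP_b07157_agYN.Krull

/-!
# The triple points with reduced tangent cone of a surface
-/

noncomputable section

namespace MPb07157

open MvPolynomial

namespace SE3

variable {n : ℕ}

theorem gen_translate (f : MvPolynomial (Fin n) ℂ) (p : Fin n → ℂ)
    (o : Unit ⊕ Fin n ⊕ (Fin n × Fin n)) : gen (translate p f) o = translate p (gen f o) := by
  rcases o with _ | i | ⟨i, j⟩
  · rfl
  · exact pderiv_translate p i f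
  · show pderiv i (pderiv j (translate p f)) = translate p (pderiv i (pderiv j f))
    rw [pderiv_translate, pderiv_translate]

/-- The derivatives of order at most two vanish: the terms of degree at most two vanish. -/
theorem coeff_eq_zero_of_gen {F : MvPolynomial (Fin n) ℂ}
    (low : ∀ o, constantCoeff (gen F o) = 0) {v : Fin n →₀ ℕ} (hv : v.degree < 3) :
    coeff v F = 0 := by
  classical
  have h0 : coeff 0 F = 0 := by
    rw [← constantCoeff_eq]
    exact low (.inl ())
  have h1 : ∀ i, coeff 0 (pderiv i F) = 0 := fun i => by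
    rw [← constantCoeff_eq]
    exact low (.inr (.inl i))
  have h2 : ∀ i j, coeff 0 (pderiv i (pderiv j F)) = 0 := fun i j => by
    rw [← constantCoeff_eq]
    exact low (.inr (.inr (i, j)))
  by_contra hne
  by_cases hv0 : v = 0
  · rw [hv0] at hne
    exact hne h0
  obtain ⟨i, hi⟩ : ∃ i, v i ≠ 0 := by
    by_contra hcon
    push Not at hcon
    exact hv0 (Finsupp.ext hcon)
  obtain ⟨w, hw⟩ : ∃ w : Fin n →₀ ℕ, v = w + Finsupp.single i 1 := by
    refine ⟨v - Finsupp.single i 1, ?_⟩
    rw [tsub_add_cancel_of_le]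
    exact Finsupp.single_le_iff.2 (Nat.one_le_iff_ne_zero.2 hi)
  have hcw : coeff w (pderiv i F) ≠ 0 := by
    rw [coeff_pderiv, ← hw]
    exact mul_ne_zero hne (by exact_mod_cast Nat.succ_ne_zero (w i))
  have hdw : w.degree + 1 = v.degree := by
    rw [hw, map_add, Finsupp.degree_single]
  by_cases hw0 : w = 0
  · rw [hw0] at hcw
    exact hcw (h1 i)
  obtain ⟨j, hj⟩ : ∃ j, w j ≠ 0 := by
    by_contra hcon
    push Not at hcon
    exact hw0 (Finsupp.ext hcon)
  obtain ⟨z, hz⟩ : ∃ z : Fin n →₀ ℕ, w = z + Finsupp.single j 1 := by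
    refine ⟨w - Finsupp.single j 1, ?_⟩
    rw [tsub_add_cancel_of_le]
    exact Finsupp.single_le_iff.2 (Nat.one_le_iff_ne_zero.2 hj)
  have hcz : coeff z (pderiv j (pderiv i F)) ≠ 0 := by
    rw [coeff_pderiv, ← hz]
    exact mul_ne_zero hcw (by exact_mod_cast Nat.succ_ne_zero (z j))
  have hdz : z.degree + 1 = w.degree := by
    rw [hz, map_add, Finsupp.degree_single]
  have hz0 : z = 0 := by
    have : z.degree = 0 := by omega
    exact (Finsupp.degree_eq_zero_iff z).1 this
  rw [hz0] at hcz
  exact hcz (h2 j i)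

theorem low_of_gen {F : MvPolynomial (Fin n) ℂ} (low : ∀ o, constantCoeff (gen F o) = 0) :
    ∀ j < 3, homogeneousComponent j F = 0 := by
  classical
  intro j hj
  ext v
  rw [coeff_homogeneousComponent, coeff_zero]
  split_ifs with h
  · exact coeff_eq_zero_of_gen low (by rw [h]; exact hj)
  · rfl

/-- The ideal of the derivatives of order at most two. -/
def gI (f : MvPolynomial (Fin n) ℂ) : Ideal (MvPolynomial (Fin n) ℂ) :=
  Ideal.span (Set.range (gen f))

theorem ker_le {p : Fin n → ℂ} {Q : Ideal (MvPolynomial (Fin n) ℂ)}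
    (h : ∀ i, X i - C (p i) ∈ Q) : RingHom.ker (eval p) ≤ Q := by
  intro g hg
  have h1 : ∀ g : MvPolynomial (Fin n) ℂ,
      Ideal.Quotient.mk Q g = Ideal.Quotient.mk Q (C (eval p g)) := by
    intro g
    induction g using MvPolynomial.induction_on with
    | C a => rw [eval_C]
    | add a b ha hb => rw [map_add, ha, hb, map_add, map_add, map_add]
    | mul_X a i ha =>
      have h2 : Ideal.Quotient.mk Q (X i) = Ideal.Quotient.mk Q (C (p i)) := by
        rw [Ideal.Quotient.eq]
        exact h i
      rw [map_mul, ha, h2, map_mul, eval_X, map_mul, map_mul]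
  have h2 := h1 g
  rw [(RingHom.mem_ker).1 hg, map_zero, map_zero] at h2
  exact Ideal.Quotient.eq_zero_iff_mem.1 h2

theorem mem_minimalPrimes {I : Ideal (MvPolynomial (Fin n) ℂ)} {p : Fin n → ℂ}
    (hI : I ≤ RingHom.ker (eval p))
    (h : ∀ i, ∃ (b : MvPolynomial (Fin n) ℂ) (N : ℕ), eval p b ≠ 0 ∧
      b * (X i - C (p i)) ^ N ∈ I) : RingHom.ker (eval p) ∈ I.minimalPrimes := by
  refine ⟨⟨RingHom.ker_isPrime _, hI⟩, ?_⟩
  rintro Q ⟨hQ, hIQ⟩ hle
  refine ker_le fun i => ?_
  obtain ⟨b, N, hb, hbN⟩ := h i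
  rcases hQ.mem_or_mem (hIQ hbN) with h1 | h1
  · exact absurd ((RingHom.mem_ker).1 (hle h1)) hb
  · exact hQ.mem_of_pow_mem _ h1

theorem translate_neg_X (p : Fin n → ℂ) (i : Fin n) :
    translate (fun i => -p i) (X i) = X i - C (p i) := by
  unfold translate
  rw [aeval_X, map_neg, sub_eq_add_neg]

/-- The points at which the coordinates are nilpotent modulo the derivatives of order at most
two. -/
theorem minimal_of_radical {f : MvPolynomial (Fin n) ℂ} {p : Fin n → ℂ}
    (low : ∀ o, constantCoeff (gen (translate p f) o) = 0)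
    (h : ∀ i, (MvPowerSeries.X i : MvPowerSeries (Fin n) ℂ) ∈ (Ideal.span (Set.range fun o =>
      (gen (translate p f) o : MvPowerSeries (Fin n) ℂ))).radical) :
    RingHom.ker (eval p) ∈ (gI f).minimalPrimes := by
  classical
  refine mem_minimalPrimes ?_ fun i => ?_
  · unfold gI
    rw [Ideal.span_le]
    rintro _ ⟨o, rfl⟩
    show eval p (gen f o) = 0
    rw [MB.eval_eq_constantCoeff, ← gen_translate]
    exact low o
  · obtain ⟨N, hN⟩ := h i
    obtain ⟨c, hc⟩ := (Ideal.mem_span_range_iff_exists_fun).1 hN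
    have e1 : ((X i ^ N : MvPolynomial (Fin n) ℂ) : MvPowerSeries (Fin n) ℂ) =
        ∑ k : Fin (Fintype.card (Unit ⊕ Fin n ⊕ (Fin n × Fin n))),
          c ((Fintype.equivFin _).symm k) *
            ((gen (translate p f) ((Fintype.equivFin _).symm k) : MvPolynomial (Fin n) ℂ) :
              MvPowerSeries (Fin n) ℂ) := by
      rw [← MvPolynomial.coeToMvPowerSeries.ringHom_apply, map_pow,
        MvPolynomial.coeToMvPowerSeries.ringHom_apply, MvPolynomial.coe_X, ← hc]
      exact (Equiv.sum_comp (Fintype.equivFin (Unit ⊕ Fin n ⊕ (Fin n × Fin n))).symm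
        (fun o => c o * ((gen (translate p f) o : MvPolynomial (Fin n) ℂ) :
              MvPowerSeries (Fin n) ℂ))).symm
    obtain ⟨s, b, hs, hsb⟩ := YN.exists_local _ _ _ e1
    refine ⟨translate (fun i => -p i) s, N, ?_, ?_⟩
    · rw [MB.eval_eq_constantCoeff, OR.translate_translate_neg]
      exact hs
    · have h1 := congrArg (OR.tr fun i => -p i) hsb
      rw [map_mul, map_pow, map_sum] at h1
      simp only [map_mul] at h1
      rw [OR.tr_apply, OR.tr_apply, translate_neg_X] at h1
      rw [h1]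
      refine sum_mem fun k _ => (gI f).mul_mem_left _ ?_
      rw [OR.tr_apply, gen_translate, translate_neg_translate]
      exact Ideal.subset_span ⟨_, rfl⟩

theorem finite_minimal (f : MvPolynomial (Fin n) ℂ) :
    {p : Fin n → ℂ | RingHom.ker (eval p) ∈ (gI f).minimalPrimes}.Finite := by
  have h1 : ((gI f).minimalPrimes).Finite := Ideal.finite_minimalPrimes_of_isNoetherianRing _ _
  refine Set.Finite.preimage (f := fun p : Fin n → ℂ => RingHom.ker (eval p)) ?_ h1
  intro p _ q _ hpq
  funext i
  have h2 : X i - C (p i) ∈ RingHom.ker (eval p) := by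
    rw [RingHom.mem_ker, map_sub, eval_X, eval_C, sub_self]
  have h3 : RingHom.ker (eval p) = RingHom.ker (eval q) := hpq
  rw [h3, RingHom.mem_ker, map_sub, eval_X, eval_C, sub_eq_zero] at h2
  exact h2.symm

/-- **The triple points with reduced tangent cone** of a surface are finitely many points and
ordinary multiple points along smooth curves. -/
theorem triple_cover (f : MvPolynomial (Fin 3) ℂ) :
    ∃ P : Set (Fin 3 → ℂ), P.Finite ∧
      (∀ p ∈ P, (∀ j < 3, homogeneousComponent j (translate p f) = 0) ∧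
        Squarefree (homogeneousComponent 3 (translate p f))) ∧
      ∀ p, (∀ o, constantCoeff (gen (translate p f) o) = 0) →
        Squarefree (homogeneousComponent 3 (translate p f)) → p ∈ P ∨ OrdMult f p := by
  refine ⟨{p | RingHom.ker (eval p) ∈ (gI f).minimalPrimes} ∩
    {p | (∀ o, constantCoeff (gen (translate p f) o) = 0) ∧
      Squarefree (homogeneousComponent 3 (translate p f))}, (finite_minimal f).inter_of_left _,
    ?_, ?_⟩
  · rintro p ⟨_, hp1, hp2⟩
    exact ⟨low_of_gen hp1, hp2⟩
  · intro p hp1 hp2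
    rcases dich hp1 hp2 with h | ⟨y, g, hg, hF, hy, hLI, hns⟩
    · exact Or.inl ⟨minimal_of_radical hp1 h, hp1, hp2⟩
    · exact Or.inr ⟨2, 3, y, g, by norm_num, hg, hF, hy, hLI, hns⟩

end SE3

end MPb07157
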