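import Pool.Agent.Lib.MP_b07157_agSE.MtD
import Pool.Agent.Lib.MP_b07157_agT3.Main
import Pool.Agent.Lib.MP_b07157_agE.EG1

/-!
# The cover of the triple points with reduced tangent cone
-/

noncomputable section

namespace MPb07157

open MvPolynomial

namespace SE3

/-- The triple points with reduced tangent cone of a surface are covered by finitely many
constructible sets, along which the polynomial is semi-quasi-homogeneous, and points at which the
local version of the conjecture holds. -/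
theorem exists_cover_triple {g : MvPolynomial (Fin 3) ℂ} (hg : g ≠ 0) :
    ∃ T : Set (Set (Fin 3 → ℂ)), T.Finite ∧
      (∀ W ∈ T, IsConstr W ∧ ((∃ (m : ℕ) (w : Fin m → ℕ) (N : ℕ), SqhAlong g W w N) ∨
        ∃ x, W = {x} ∧ (translate x g ≠ 0 → coeff 0 (translate x g) = 0 →
          SmcLoc (translate x g)))) ∧
      ∀ p, eval p g = 0 → (∀ i, eval p (pderiv i g) = 0) →
        (∀ i j, eval p (pderiv i (pderiv j g)) = 0) →
        Squarefree (homogeneousComponent 3 (translate p g)) → ∃ W ∈ T, p ∈ W := by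
  classical
  obtain ⟨T₂, hT₂, hcov₂, hT₂W⟩ := exists_cover_ordMult hg
  obtain ⟨P, hP, hP1, hP2⟩ := triple_cover g
  refine ⟨T₂ ∪ (fun p => ({p} : Set (Fin 3 → ℂ))) '' P, hT₂.union (hP.image _), ?_, ?_⟩
  · rintro W (hW | ⟨p, hp, rfl⟩)
    · obtain ⟨h1, k, m, h2⟩ := hT₂W W hW
      exact ⟨h1, Or.inl ⟨k, _, m, h2⟩⟩
    · exact ⟨isConstr_point p, Or.inr ⟨p, rfl, fun _ _ =>
        SmcLoc.of_triple (hP1 p hp).1 (hP1 p hp).2⟩⟩
  · intro p h0 h1 h2 h3
    have hlow : ∀ o, constantCoeff (gen (translate p g) o) = 0 := by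
      intro o
      rw [gen_translate, ← MB.eval_eq_constantCoeff]
      rcases o with _ | i | ⟨i, j⟩
      · exact h0
      · exact h1 i
      · exact h2 i j
    rcases hP2 p hlow h3 with h4 | h4
    · exact ⟨{p}, Or.inr ⟨p, h4, rfl⟩, rfl⟩
    · obtain ⟨W, hW, hpW⟩ := hcov₂ p h4
      exact ⟨W, Or.inl hW, hpW⟩

end SE3

end MPb07157
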