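import Pool.Agent.Lib.MP_b07157_agSE.Deg4
import Pool.Agent.Lib.MP_b07157_agSE.Surf

/-!
The strong monodromy conjecture for the polynomials of degree at most four in three variables whose
tangent cones at the points of multiplicity three are reduced.
-/

noncomputable section

namespace MPb07157

open MvPolynomial

/-- **The strong monodromy conjecture, global version**, for the polynomials of degree at most four
in three variables whose tangent cones at the points of multiplicity three are reduced. -/
theorem SmcGlob.of_deg4 {f : MvPolynomial (Fin 3) ℂ} (hf : f ≠ 0) (hd : f.totalDegree ≤ 4)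
    (h3 : ∀ p, (∀ j < 3, homogeneousComponent j (translate p f) = 0) →
      homogeneousComponent 3 (translate p f) ≠ 0 →
        Squarefree (homogeneousComponent 3 (translate p f))) : SmcGlob f :=
  SE4.smcGlob_deg4 (fun _ hf h0 h => SmcGlob.of_surf hf h0 (T := ∅) Set.finite_empty
    (fun _ hW => absurd hW (Set.notMem_empty _)) fun p hp hc => Or.inr (Or.inr (h p hp hc)))
    hf hd h3

/-- **The strong monodromy conjecture, local version**, for the polynomials of degree at most four
in three variables whose multiplicity at the origin is not three or whose tangent cone is
reduced. -/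
theorem SmcLoc.of_deg4 {f : MvPolynomial (Fin 3) ℂ} (hf : f ≠ 0) (h0 : coeff 0 f = 0)
    (hd : f.totalDegree ≤ 4) (h3 : (∀ j < 3, homogeneousComponent j f = 0) →
      homogeneousComponent 3 f ≠ 0 → Squarefree (homogeneousComponent 3 f)) : SmcLoc f :=
  SE4.smcLoc_deg4 hf h0 hd h3

end MPb07157
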