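import Pool.Agent.Lib.MP_b07157_agT3.Lin
import Pool.Agent.Lib.MP_b07157_agW.WM
import Pool.Agent.Lib.MP_b07157_agSC.OrdB

/-!
# Squarefree cubic forms in three variables
-/

noncomputable section

namespace MPb07157

open MvPolynomial

namespace SE3

variable {c : MvPolynomial (Fin 3) ℂ}

/-- The linear substitution. -/
abbrev sub3 (M : Matrix (Fin 3) (Fin 3) ℂ) : Fin 3 → MvPolynomial (Fin 3) ℂ :=
  fun i => ∑ j, C (M i j) * X j

theorem eval_sub3 (M : Matrix (Fin 3) (Fin 3) ℂ) (w : Fin 3 → ℂ) (G : MvPolynomial (Fin 3) ℂ) :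
    eval w (aeval (sub3 M) G) = eval (M.mulVec w) G := by
  have h1 : ((aeval w : MvPolynomial (Fin 3) ℂ →ₐ[ℂ] ℂ).comp (aeval (sub3 M))) G =
      aeval (fun b => aeval w (sub3 M b)) G := by
    rw [comp_aeval]
  have h2 : (fun b => aeval w (sub3 M b)) = M.mulVec w := by
    funext b
    show aeval w (∑ i, C (M b i) * X i : MvPolynomial (Fin 3) ℂ) = _
    rw [map_sum]
    show _ = ∑ i, M b i * w i
    refine Finset.sum_congr rfl fun i _ => ?_
    rw [map_mul, aeval_C, aeval_X]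
    rfl
  rw [h2] at h1
  exact h1

theorem pderiv_sub3 (M : Matrix (Fin 3) (Fin 3) ℂ) (a : Fin 3) (G : MvPolynomial (Fin 3) ℂ) :
    pderiv a (aeval (sub3 M) G) = ∑ i, aeval (sub3 M) (pderiv i G) * C (M i a) := by
  classical
  rw [W.pderiv_aeval]
  refine Finset.sum_congr rfl fun i _ => ?_
  congr 1
  show pderiv a (∑ j, C (M i j) * X j : MvPolynomial (Fin 3) ℂ) = _
  rw [map_sum, Finset.sum_eq_single a]
  · rw [pderiv_C_mul, pderiv_X_self, mul_one]
  · intro j _ hj
    rw [pderiv_C_mul, pderiv_X_of_ne hj, mul_zero]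
  · intro h
    exact absurd (Finset.mem_univ _) h

theorem grad_sub3 (M : Matrix (Fin 3) (Fin 3) ℂ) (w : Fin 3 → ℂ) (a : Fin 3)
    (G : MvPolynomial (Fin 3) ℂ) :
    eval w (pderiv a (aeval (sub3 M) G)) = ∑ i, eval (M.mulVec w) (pderiv i G) * M i a := by
  rw [pderiv_sub3, map_sum]
  refine Finset.sum_congr rfl fun i _ => ?_
  rw [map_mul, eval_sub3, eval_C]

theorem hess_sub3 (M : Matrix (Fin 3) (Fin 3) ℂ) (w : Fin 3 → ℂ) (a b : Fin 3)
    (G : MvPolynomial (Fin 3) ℂ) :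
    eval w (pderiv a (pderiv b (aeval (sub3 M) G))) =
      (M.transpose * (Matrix.of fun i j => eval (M.mulVec w) (pderiv i (pderiv j G))) * M) a b := by
  rw [pderiv_sub3, map_sum, map_sum]
  have h1 : ∀ i, eval w (pderiv a (aeval (sub3 M) (pderiv i G) * C (M i b))) =
      ∑ j, M j a * eval (M.mulVec w) (pderiv j (pderiv i G)) * M i b := by
    intro i
    rw [pderiv_mul, pderiv_C, mul_zero, add_zero, map_mul, eval_C, grad_sub3, Finset.sum_mul]
    exact Finset.sum_congr rfl fun j _ => by ring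
  rw [Finset.sum_congr rfl fun i _ => h1 i, Matrix.mul_apply]
  refine Finset.sum_congr rfl fun i _ => ?_
  rw [Matrix.mul_apply, Finset.sum_mul]
  rfl

theorem grad_cubes (w : Fin 3 → ℂ) :
    eval w (pderiv 0 (X 0 ^ 3 + X 1 ^ 3 : MvPolynomial (Fin 3) ℂ)) = 3 * w 0 ^ 2 ∧
    eval w (pderiv 1 (X 0 ^ 3 + X 1 ^ 3 : MvPolynomial (Fin 3) ℂ)) = 3 * w 1 ^ 2 := by
  constructor
  · rw [map_add, Derivation.leibniz_pow, Derivation.leibniz_pow, pderiv_X_self,
      pderiv_X_of_ne (by decide)]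
    simp
  · rw [map_add, Derivation.leibniz_pow, Derivation.leibniz_pow, pderiv_X_self,
      pderiv_X_of_ne (by decide)]
    simp

theorem hess_cubes (w : Fin 3 → ℂ) (a b : Fin 3) :
    eval w (pderiv a (pderiv b (X 0 ^ 3 + X 1 ^ 3 : MvPolynomial (Fin 3) ℂ))) =
      if a = b then (if a = 0 then 6 * w 0 else if a = 1 then 6 * w 1 else 0) else 0 := by
  have e0 : pderiv 0 (X 0 ^ 3 + X 1 ^ 3 : MvPolynomial (Fin 3) ℂ) = C 3 * X 0 ^ 2 := by
    rw [map_add, Derivation.leibniz_pow, Derivation.leibniz_pow, pderiv_X_self,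
      pderiv_X_of_ne (by decide)]
    simp [map_ofNat]
    try ring
  have e1 : pderiv 1 (X 0 ^ 3 + X 1 ^ 3 : MvPolynomial (Fin 3) ℂ) = C 3 * X 1 ^ 2 := by
    rw [map_add, Derivation.leibniz_pow, Derivation.leibniz_pow, pderiv_X_self,
      pderiv_X_of_ne (by decide)]
    simp [map_ofNat]
    try ring
  have e2 : pderiv 2 (X 0 ^ 3 + X 1 ^ 3 : MvPolynomial (Fin 3) ℂ) = 0 := by
    rw [map_add, Derivation.leibniz_pow, Derivation.leibniz_pow, pderiv_X_of_ne (by decide),
      pderiv_X_of_ne (by decide)]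
    simp
  fin_cases b
  · show eval w (pderiv a (pderiv 0 (X 0 ^ 3 + X 1 ^ 3 : MvPolynomial (Fin 3) ℂ))) = _
    rw [e0, pderiv_C_mul, Derivation.leibniz_pow]
    fin_cases a <;> simp [pderiv_X] <;> try ring
  · show eval w (pderiv a (pderiv 1 (X 0 ^ 3 + X 1 ^ 3 : MvPolynomial (Fin 3) ℂ))) = _
    rw [e1, pderiv_C_mul, Derivation.leibniz_pow]
    fin_cases a <;> simp [pderiv_X] <;> try ring
  · show eval w (pderiv a (pderiv 2 (X 0 ^ 3 + X 1 ^ 3 : MvPolynomial (Fin 3) ℂ))) = _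
    rw [e2]
    fin_cases a <;> simp

theorem crit_vertex {M : Matrix (Fin 3) (Fin 3) ℂ} (hMd : M.det ≠ 0)
    (hM : aeval (sub3 M) c = (X 0 ^ 3 + X 1 ^ 3 : MvPolynomial (Fin 3) ℂ)) {z : Fin 3 → ℂ}
    (hz : ∀ i, eval z (pderiv i c) = 0) : ∀ i j, eval z (pderiv i (pderiv j c)) = 0 := by
  have hu : IsUnit M.det := isUnit_iff_ne_zero.2 hMd
  obtain ⟨w, hw⟩ : ∃ w, M.mulVec w = z := ⟨M⁻¹.mulVec z, by
    rw [Matrix.mulVec_mulVec, Matrix.mul_nonsing_inv _ hu, Matrix.one_mulVec]⟩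
  have h0 : w 0 = 0 := by
    have h1 := (grad_cubes w).1
    rw [← hM, grad_sub3, hw, Finset.sum_eq_zero (fun i _ => by rw [hz, zero_mul])] at h1
    have h2 : w 0 ^ 2 = 0 := by linear_combination -(1 / 3) * h1
    exact pow_eq_zero_iff two_ne_zero |>.1 h2
  have h1 : w 1 = 0 := by
    have h1 := (grad_cubes w).2
    rw [← hM, grad_sub3, hw, Finset.sum_eq_zero (fun i _ => by rw [hz, zero_mul])] at h1
    have h2 : w 1 ^ 2 = 0 := by linear_combination -(1 / 3) * h1
    exact pow_eq_zero_iff two_ne_zero |>.1 h2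
  have h2 : M.transpose * (Matrix.of fun i j => eval z (pderiv i (pderiv j c))) * M = 0 := by
    ext a b
    rw [← hw, ← hess_sub3, hM, hess_cubes, h0, h1]
    simp
  have h3 : (Matrix.of fun i j => eval z (pderiv i (pderiv j c))) = 0 := by
    have hut : IsUnit M.transpose.det := by rwa [Matrix.det_transpose]
    have h4 := congrArg (fun N => (M.transpose)⁻¹ * N * M⁻¹) h2
    simp only [Matrix.mul_zero, Matrix.zero_mul] at h4
    rw [← Matrix.mul_assoc, ← Matrix.mul_assoc, Matrix.nonsing_inv_mul _ hut, Matrix.one_mul,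
      Matrix.mul_assoc, Matrix.mul_nonsing_inv _ hu, Matrix.mul_one] at h4
    exact h4
  intro i j
  exact congrFun (congrFun h3 i) j

theorem mem_line {M : Matrix (Fin 3) (Fin 3) ℂ} (hMd : M.det ≠ 0)
    (hM : aeval (sub3 M) c = (X 0 ^ 3 + X 1 ^ 3 : MvPolynomial (Fin 3) ℂ)) {z : Fin 3 → ℂ}
    (hz : ∀ i j, eval z (pderiv i (pderiv j c)) = 0) : ∃ t : ℂ, z = t • fun i => M i 2 := by
  have hu : IsUnit M.det := isUnit_iff_ne_zero.2 hMd
  obtain ⟨w, hw⟩ : ∃ w, M.mulVec w = z := ⟨M⁻¹.mulVec z, by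
    rw [Matrix.mulVec_mulVec, Matrix.mul_nonsing_inv _ hu, Matrix.one_mulVec]⟩
  have h2 : (Matrix.of fun i j => eval (M.mulVec w) (pderiv i (pderiv j c))) = 0 := by
    ext i j
    rw [hw]
    exact hz i j
  have h3 : ∀ a b, eval w (pderiv a (pderiv b (X 0 ^ 3 + X 1 ^ 3 : MvPolynomial (Fin 3) ℂ))) = 0 := by
    intro a b
    rw [← hM, hess_sub3, h2, Matrix.mul_zero, Matrix.zero_mul, Matrix.zero_apply]
  have h0 : w 0 = 0 := by
    have h1 := h3 0 0
    rw [hess_cubes] at h1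
    simpa using h1
  have h1 : w 1 = 0 := by
    have h1 := h3 1 1
    rw [hess_cubes] at h1
    simpa using h1
  refine ⟨w 2, ?_⟩
  rw [← hw]
  funext i
  rw [Matrix.mulVec, dotProduct, Fin.sum_univ_three, h0, h1, Pi.smul_apply, smul_eq_mul]
  ring

/-- The coefficients of the second derivatives of a cubic form. -/
def V3 (c : MvPolynomial (Fin 3) ℂ) : Matrix (Fin 3 × Fin 3) (Fin 3) ℂ :=
  Matrix.of fun p l => coeff (Finsupp.single l 1) (pderiv p.1 (pderiv p.2 c))

theorem V3_mulVec (hc : c.IsHomogeneous 3) (z : Fin 3 → ℂ) (p : Fin 3 × Fin 3) :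
    (V3 c).mulVec z p = eval z (pderiv p.1 (pderiv p.2 c)) := by
  have h1 : (pderiv p.1 (pderiv p.2 c)).IsHomogeneous 1 := (hc.pderiv (i := p.2)).pderiv
  rw [OR.eval_of_isHomogeneous_one h1]
  rfl

/-- The second derivatives of a squarefree cubic form span a space of dimension at least two. -/
theorem two_le_rank (hc : c.IsHomogeneous 3) (hsq : Squarefree c) : 2 ≤ (V3 c).rank := by
  have h1 := LinearMap.finrank_range_add_finrank_ker (V3 c).mulVecLin
  rw [Module.finrank_fin_fun] at h1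
  have h2 : Module.finrank ℂ (LinearMap.ker (V3 c).mulVecLin) ≤ 1 := by
    by_cases hq : ∃ q : Fin 3 → ℂ, q ≠ 0 ∧ ∀ i j, eval q (pderiv i (pderiv j c)) = 0
    · obtain ⟨q, hq0, hqq⟩ := hq
      obtain ⟨M, hMd, hM⟩ := T3.exists_lin hc hsq hq0 hqq
      have h3 : LinearMap.ker (V3 c).mulVecLin ≤ Submodule.span ℂ {fun i => M i 2} := by
        intro z hz
        rw [LinearMap.mem_ker] at hz
        obtain ⟨t, ht⟩ := mem_line hMd hM (z := z) fun i j => by
          rw [← V3_mulVec hc z (i, j)]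
          exact congrFun hz (i, j)
        rw [ht]
        exact Submodule.smul_mem _ _ (Submodule.mem_span_singleton_self _)
      refine (Submodule.finrank_mono h3).trans ((finrank_span_le_card _).trans ?_)
      simp
    · push Not at hq
      have h3 : LinearMap.ker (V3 c).mulVecLin = ⊥ := by
        rw [eq_bot_iff]
        intro z hz
        rw [LinearMap.mem_ker] at hz
        rw [Submodule.mem_bot]
        by_contra hz0
        obtain ⟨i, j, hij⟩ := hq z hz0
        apply hij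
        rw [← V3_mulVec hc z (i, j)]
        exact congrFun hz (i, j)
      rw [h3, finrank_bot]
      exact Nat.zero_le _
  have h3 : (V3 c).rank = Module.finrank ℂ (LinearMap.range (V3 c).mulVecLin) := rfl
  omega

/-- `r` independent second derivatives. -/
theorem exists_pairs {r : ℕ} (hr : r ≤ (V3 c).rank) : ∃ s : Fin r → Fin 3 × Fin 3,
    LinearIndependent ℂ fun (a : Fin r) (l : Fin 3) => V3 c (s a) l := by
  obtain ⟨v, hv1, hv2⟩ : ∃ v : Fin (V3 c).rank → (Fin 3 → ℂ), (∀ i, v i ∈ Set.range (V3 c).row) ∧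
      LinearIndependent ℂ v := by
    rw [Matrix.rank_eq_finrank_span_row]
    obtain ⟨v, h1, _, h2⟩ := Submodule.exists_fun_fin_finrank_span_eq ℂ (Set.range (V3 c).row)
    exact ⟨v, h1, h2⟩
  choose s hs using hv1
  refine ⟨fun a => s (Fin.castLE hr a), ?_⟩
  have h1 := hv2.comp (Fin.castLE hr) (Fin.castLE_injective hr)
  have h2 : v ∘ (Fin.castLE hr) = fun (a : Fin r) (l : Fin 3) => V3 c (s (Fin.castLE hr a)) l := by
    funext a
    rw [Function.comp_apply, ← hs]
    rfl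
  rw [← h2]
  exact h1

end SE3

end MPb07157
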