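import Pool.Agent.Lib.MP_b07157_agE.EA

/-!
# Power series of order at least `m` in the first two variables
-/

noncomputable section

namespace MPb07157

open MvPolynomial

namespace SE3

/-- The order in the first two of three variables is at least `m`. -/
def Kz (m : ℕ) (G : MvPowerSeries (Fin 3) ℂ) : Prop :=
  ∀ v : Fin 3 →₀ ℕ, v 0 + v 1 < m → MvPowerSeries.coeff v G = 0

variable {m : ℕ}

theorem Kz.add {a b : MvPowerSeries (Fin 3) ℂ} (ha : Kz m a) (hb : Kz m b) : Kz m (a + b) :=
  fun v hv => by rw [map_add, ha v hv, hb v hv, add_zero]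

theorem Kz.sub {a b : MvPowerSeries (Fin 3) ℂ} (ha : Kz m a) (hb : Kz m b) : Kz m (a - b) :=
  fun v hv => by rw [map_sub, ha v hv, hb v hv, sub_zero]

theorem Kz.sum {ι : Type} (s : Finset ι) {a : ι → MvPowerSeries (Fin 3) ℂ}
    (ha : ∀ i ∈ s, Kz m (a i)) : Kz m (∑ i ∈ s, a i) := fun v hv => by
  rw [map_sum]
  exact Finset.sum_eq_zero fun i hi => ha i hi v hv

theorem Kz.mul_left {b : MvPowerSeries (Fin 3) ℂ} (a : MvPowerSeries (Fin 3) ℂ) (hb : Kz m b) :
    Kz m (a * b) := by
  classical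
  intro v hv
  rw [MvPowerSeries.coeff_mul]
  refine Finset.sum_eq_zero fun q hq => ?_
  rw [Finset.HasAntidiagonal.mem_antidiagonal] at hq
  rw [hb q.2, mul_zero]
  have h0 : v 0 = q.1 0 + q.2 0 := by rw [← hq, Finsupp.add_apply]
  have h1 : v 1 = q.1 1 + q.2 1 := by rw [← hq, Finsupp.add_apply]
  omega

theorem Kz.succ (hm : 1 ≤ m) {G : MvPowerSeries (Fin 3) ℂ} (hG : Kz m G)
    (h0 : Kz m (MvPowerSeries.pderiv ℂ 0 G)) (h1 : Kz m (MvPowerSeries.pderiv ℂ 1 G)) :
    Kz (m + 1) G := by
  classical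
  intro v hv
  by_cases hlt : v 0 + v 1 < m
  · exact hG v hlt
  have key : ∀ i : Fin 3, v i ≠ 0 → i = 0 ∨ i = 1 → MvPowerSeries.coeff v G = 0 := by
    intro i hi hi2
    obtain ⟨w, hw⟩ : ∃ w : Fin 3 →₀ ℕ, v = w + Finsupp.single i 1 := by
      refine ⟨v - Finsupp.single i 1, ?_⟩
      rw [tsub_add_cancel_of_le]
      exact Finsupp.single_le_iff.2 (Nat.one_le_iff_ne_zero.2 hi)
    have h2 : MvPowerSeries.coeff w (MvPowerSeries.pderiv ℂ i G) = 0 := by
      rcases hi2 with rfl | rfl
      · refine h0 w ?_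
        have e0 : v 0 = w 0 + 1 := by rw [hw]; simp
        have e1 : v 1 = w 1 := by rw [hw]; simp
        omega
      · refine h1 w ?_
        have e0 : v 0 = w 0 := by rw [hw]; simp
        have e1 : v 1 = w 1 + 1 := by rw [hw]; simp
        omega
    rw [MvPowerSeries.coeff_pderiv, ← hw] at h2
    refine (mul_eq_zero.1 h2).resolve_right ?_
    exact_mod_cast Nat.succ_ne_zero (w i)
  by_cases hv0 : v 0 = 0
  · exact key 1 (by omega) (Or.inr rfl)
  · exact key 0 hv0 (Or.inl rfl)

theorem Kz.decomp {G : MvPowerSeries (Fin 3) ℂ} (hG : Kz (m + 1) G) :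
    ∃ A B : MvPowerSeries (Fin 3) ℂ, Kz m A ∧ Kz m B ∧
      G = MvPowerSeries.X 0 * A + MvPowerSeries.X 1 * B := by
  classical
  refine ⟨fun v => MvPowerSeries.coeff (v + Finsupp.single 0 1) G,
    fun v => if v 0 = 0 then MvPowerSeries.coeff (v + Finsupp.single 1 1) G else 0, ?_, ?_, ?_⟩
  · intro v hv
    show MvPowerSeries.coeff (v + Finsupp.single 0 1) G = 0
    refine hG _ ?_
    have e0 : (v + Finsupp.single 0 1 : Fin 3 →₀ ℕ) 0 = v 0 + 1 := by simp
    have e1 : (v + Finsupp.single 0 1 : Fin 3 →₀ ℕ) 1 = v 1 := by simp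
    omega
  · intro v hv
    show (if v 0 = 0 then MvPowerSeries.coeff (v + Finsupp.single 1 1) G else 0) = 0
    split_ifs with h
    · refine hG _ ?_
      have e0 : (v + Finsupp.single 1 1 : Fin 3 →₀ ℕ) 0 = v 0 := by simp
      have e1 : (v + Finsupp.single 1 1 : Fin 3 →₀ ℕ) 1 = v 1 + 1 := by simp
      omega
    · rfl
  · ext v
    rw [map_add, MvPowerSeries.X, MvPowerSeries.X, MvPowerSeries.coeff_monomial_mul,
      MvPowerSeries.coeff_monomial_mul]
    by_cases h0 : v 0 = 0
    · rw [if_neg, zero_add]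
      · by_cases h1 : v 1 = 0
        · rw [if_neg]
          · exact hG v (by omega)
          · intro hle
            have := Finsupp.single_le_iff.1 hle
            omega
        · have hle : (Finsupp.single 1 1 : Fin 3 →₀ ℕ) ≤ v :=
            Finsupp.single_le_iff.2 (Nat.one_le_iff_ne_zero.2 h1)
          rw [if_pos hle, one_mul]
          show _ = if (v - Finsupp.single 1 1 : Fin 3 →₀ ℕ) 0 = 0 then
            MvPowerSeries.coeff (v - Finsupp.single 1 1 + Finsupp.single 1 1) G else 0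
          rw [if_pos, tsub_add_cancel_of_le hle]
          simp [h0]
      · intro hle
        have := Finsupp.single_le_iff.1 hle
        omega
    · have hle : (Finsupp.single 0 1 : Fin 3 →₀ ℕ) ≤ v :=
        Finsupp.single_le_iff.2 (Nat.one_le_iff_ne_zero.2 h0)
      rw [if_pos hle, one_mul]
      have e1 : MvPowerSeries.coeff (v - Finsupp.single 0 1)
          (fun v => MvPowerSeries.coeff (v + Finsupp.single 0 1) G :
            MvPowerSeries (Fin 3) ℂ) = MvPowerSeries.coeff v G := by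
        show MvPowerSeries.coeff (v - Finsupp.single 0 1 + Finsupp.single 0 1) G = _
        rw [tsub_add_cancel_of_le hle]
      rw [e1]
      split_ifs with h1
      · have e2 : MvPowerSeries.coeff (v - Finsupp.single 1 1)
            (fun v => if v 0 = 0 then MvPowerSeries.coeff (v + Finsupp.single 1 1) G else 0 :
              MvPowerSeries (Fin 3) ℂ) = 0 := by
          show (if (v - Finsupp.single 1 1 : Fin 3 →₀ ℕ) 0 = 0 then _ else 0) = 0
          rw [if_neg]
          simp [h0]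
        rw [e2, mul_zero, add_zero]
      · rw [add_zero]

/-- A power series of order at least `m` in the first two variables is a form of degree `m`. -/
theorem Kz.exists_form {G : MvPowerSeries (Fin 3) ℂ} (hG : Kz m G) :
    ∃ g : MvPolynomial (Fin 2) (MvPowerSeries (Fin 3) ℂ), g.IsHomogeneous m ∧
      G = eval (fun j => MvPowerSeries.X (Fin.castSucc j)) g := by
  induction m generalizing G with
  | zero => exact ⟨C G, isHomogeneous_C _ _, by rw [eval_C]⟩
  | succ m ih =>
    obtain ⟨A, B, hA, hB, rfl⟩ := hG.decomp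
    obtain ⟨gA, hgA, hA'⟩ := ih hA
    obtain ⟨gB, hgB, hB'⟩ := ih hB
    refine ⟨X 0 * gA + X 1 * gB, ?_, ?_⟩
    · have h1 := ((isHomogeneous_X (MvPowerSeries (Fin 3) ℂ) (0 : Fin 2)).mul hgA).add
        ((isHomogeneous_X (MvPowerSeries (Fin 3) ℂ) (1 : Fin 2)).mul hgB)
      rwa [add_comm 1 m] at h1
    · rw [map_add, map_mul, map_mul, eval_X, eval_X, ← hA', ← hB']
      rfl

/-- If a power series does not vanish on the axis of the third variable, then a power of this
variable is a combination of the first two variables and the series. -/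
theorem exists_pow_axis {G : MvPowerSeries (Fin 3) ℂ} (hG : ¬ Kz 1 G) :
    ∃ (t : ℕ) (U A B : MvPowerSeries (Fin 3) ℂ),
      MvPowerSeries.X 2 ^ t = U * G + MvPowerSeries.X 0 * A + MvPowerSeries.X 1 * B := by
  classical
  have hex : ∃ t : ℕ, MvPowerSeries.coeff (Finsupp.single 2 t) G ≠ 0 := by
    unfold Kz at hG
    push Not at hG
    obtain ⟨v, hv, hvG⟩ := hG
    refine ⟨v 2, ?_⟩
    have : Finsupp.single 2 (v 2) = v := by
      ext i
      fin_cases i
      · simp
        omega
      · simp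
        omega
      · simp
    rw [this]
    exact hvG
  let t := Nat.find hex
  have ht : MvPowerSeries.coeff (Finsupp.single 2 t) G ≠ 0 := Nat.find_spec hex
  have hmin : ∀ s < t, MvPowerSeries.coeff (Finsupp.single 2 s) G = 0 := by
    intro s hs
    by_contra h
    exact Nat.find_min hex hs h
  obtain ⟨U, hU⟩ : ∃ U : MvPowerSeries (Fin 3) ℂ, ∀ v, MvPowerSeries.coeff v U =
      if v 0 + v 1 = 0 then MvPowerSeries.coeff (v + Finsupp.single 2 t) G else 0 :=
    ⟨fun v => if v 0 + v 1 = 0 then MvPowerSeries.coeff (v + Finsupp.single 2 t) G else 0,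
      fun _ => rfl⟩
  have hUu : IsUnit U := by
    rw [MvPowerSeries.isUnit_iff_constantCoeff, isUnit_iff_ne_zero,
      ← MvPowerSeries.coeff_zero_eq_constantCoeff_apply, hU, if_pos (by simp), zero_add]
    exact ht
  have hK : Kz (0 + 1) (G - MvPowerSeries.X 2 ^ t * U) := by
    intro v hv
    rw [map_sub, MvPowerSeries.X_pow_eq, MvPowerSeries.coeff_monomial_mul, one_mul, hU]
    have hv0 : v 0 = 0 := by omega
    have hv1 : v 1 = 0 := by omega
    split_ifs with h1 h2
    · rw [tsub_add_cancel_of_le h1, sub_self]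
    · exfalso
      apply h2
      simp [hv0, hv1]
    · rw [sub_zero]
      have h3 : v = Finsupp.single 2 (v 2) := by
        ext i
        fin_cases i
        · simpa using hv0
        · simpa using hv1
        · simp
      rw [h3]
      refine hmin _ ?_
      by_contra hcon
      apply h1
      rw [Finsupp.single_le_iff]
      omega
  obtain ⟨A, B, _, _, hAB⟩ := hK.decomp
  obtain ⟨u, rfl⟩ := hUu
  refine ⟨t, ((u⁻¹ : (MvPowerSeries (Fin 3) ℂ)ˣ) : MvPowerSeries (Fin 3) ℂ),
    -(((u⁻¹ : (MvPowerSeries (Fin 3) ℂ)ˣ) : MvPowerSeries (Fin 3) ℂ) * A),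
    -(((u⁻¹ : (MvPowerSeries (Fin 3) ℂ)ˣ) : MvPowerSeries (Fin 3) ℂ) * B), ?_⟩
  have h1 : (u : MvPowerSeries (Fin 3) ℂ) *
      ((u⁻¹ : (MvPowerSeries (Fin 3) ℂ)ˣ) : MvPowerSeries (Fin 3) ℂ) = 1 := Units.mul_inv u
  have h2 : G = MvPowerSeries.X 2 ^ t * (u : MvPowerSeries (Fin 3) ℂ) +
      (MvPowerSeries.X 0 * A + MvPowerSeries.X 1 * B) := by
    rw [← hAB]
    ring
  rw [h2]
  linear_combination (-(MvPowerSeries.X 2 ^ t : MvPowerSeries (Fin 3) ℂ)) * h1

/-- The step for the change of coordinates. -/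
theorem Kz.equiv_succ (hm : 1 ≤ m)
    (e : MvPowerSeries (Fin 3) ℂ ≃ₐ[ℂ] MvPowerSeries (Fin 3) ℂ) {h : MvPowerSeries (Fin 3) ℂ}
    (hh : Kz m (e h)) (hd : ∀ i, Kz m (e (MvPowerSeries.pderiv ℂ i h))) : Kz (m + 1) (e h) := by
  refine Kz.succ hm hh ?_ ?_
  · rw [pderiv_equiv]
    exact Kz.sum _ fun i _ => (hd i).mul_left _
  · rw [pderiv_equiv]
    exact Kz.sum _ fun i _ => (hd i).mul_left _

end SE3

end MPb07157
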