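import Pool.Agent.Lib.MP_b07157_agSE.MtA
import Pool.Agent.Lib.MP_b07157_agSE.MtB
import Pool.Agent.Lib.MP_b07157_agSB.Coord

/-!
# Triple points with reduced tangent cone: isolated, or ordinary along a smooth curve
-/

noncomputable section

namespace MPb07157

open MvPolynomial

namespace SE3

/-- The polynomial and its derivatives of order one and two. -/
def gen {n : ℕ} (F : MvPolynomial (Fin n) ℂ) :
    Unit ⊕ Fin n ⊕ (Fin n × Fin n) → MvPolynomial (Fin n) ℂ
  | .inl _ => F
  | .inr (.inl i) => pderiv i F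
  | .inr (.inr p) => pderiv p.1 (pderiv p.2 F)

theorem coeff_single_second {F : MvPolynomial (Fin 3) ℂ} (i j l : Fin 3) :
    coeff (Finsupp.single l 1) (pderiv i (pderiv j F)) = V3 (homogeneousComponent 3 F) (i, j) l := by
  classical
  show _ = coeff (Finsupp.single l 1) (pderiv i (pderiv j (homogeneousComponent 3 F)))
  rw [coeff_pderiv, coeff_pderiv, coeff_pderiv, coeff_pderiv, coeff_homogeneousComponent, if_pos]
  rw [map_add, map_add, Finsupp.degree_single, Finsupp.degree_single, Finsupp.degree_single]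

theorem lin_second {F : MvPolynomial (Fin 3) ℂ} (s : Fin 2 → Fin 3 × Fin 3) (a : Fin 2)
    (l : Fin 3) : OR.lin (fun a : Fin 2 =>
      ((pderiv (s a).1 (pderiv (s a).2 F) : MvPolynomial (Fin 3) ℂ) :
        MvPowerSeries (Fin 3) ℂ)) a l = V3 (homogeneousComponent 3 F) (s a) l := by
  show MvPowerSeries.constantCoeff (MvPowerSeries.pderiv ℂ l
    ((pderiv (s a).1 (pderiv (s a).2 F) : MvPolynomial (Fin 3) ℂ) :
        MvPowerSeries (Fin 3) ℂ)) = _
  rw [← coeff_single_ps, MvPolynomial.coeff_coe, coeff_single_second]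

/-- **The dichotomy.** Let the origin be a triple point of `F` with reduced tangent cone. Then the
coordinates are nilpotent modulo the derivatives of order at most two, or the origin is an ordinary
triple point along a smooth curve. -/
theorem dich {F : MvPolynomial (Fin 3) ℂ} (low : ∀ o, constantCoeff (gen F o) = 0)
    (hsq : Squarefree (homogeneousComponent 3 F)) :
    (∀ i, (MvPowerSeries.X i : MvPowerSeries (Fin 3) ℂ) ∈
      (Ideal.span (Set.range fun o => (gen F o : MvPowerSeries (Fin 3) ℂ))).radical) ∨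
    ∃ (y : Fin 2 → MvPowerSeries (Fin 3) ℂ) (g : MvPolynomial (Fin 2) (MvPowerSeries (Fin 3) ℂ)),
      g.IsHomogeneous 3 ∧ (F : MvPowerSeries (Fin 3) ℂ) = eval y g ∧
      (∀ j, MvPowerSeries.constantCoeff (y j) = 0) ∧
      (LinearIndependent ℂ fun (j : Fin 2) (i : Fin 3) =>
        MvPowerSeries.coeff (Finsupp.single i 1) (y j)) ∧
      ∀ Y : Fin 2 → ℂ, Y ≠ 0 →
        ∃ j, eval Y (pderiv j (map (MvPowerSeries.constantCoeff (σ := Fin 3) (R := ℂ)) g)) ≠ 0 := by
  classical
  obtain ⟨c, hc⟩ : ∃ c, c = homogeneousComponent 3 F := ⟨_, rfl⟩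
  have hch : c.IsHomogeneous 3 := by
    rw [hc]
    exact homogeneousComponent_isHomogeneous 3 F
  rw [← hc] at hsq
  obtain ⟨s, hs⟩ := exists_pairs (two_le_rank hch hsq)
  obtain ⟨y, hy⟩ : ∃ y : Fin 2 → MvPowerSeries (Fin 3) ℂ, y = fun a =>
      ((pderiv (s a).1 (pderiv (s a).2 F) : MvPolynomial (Fin 3) ℂ) :
        MvPowerSeries (Fin 3) ℂ) := ⟨_, rfl⟩
  have hygen : ∀ a, y a = (gen F (.inr (.inr (s a))) : MvPowerSeries (Fin 3) ℂ) := by
    intro a
    rw [hy]
    rfl
  have hcc : ∀ P : MvPolynomial (Fin 3) ℂ,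
      MvPowerSeries.constantCoeff (P : MvPowerSeries (Fin 3) ℂ) = constantCoeff P := by
    intro P
    rw [← MvPowerSeries.coeff_zero_eq_constantCoeff_apply, MvPolynomial.coeff_coe,
      constantCoeff_eq]
  have hy0 : ∀ a, MvPowerSeries.constantCoeff (y a) = 0 := by
    intro a
    rw [hygen, hcc, low]
  have hylin : ∀ a l, OR.lin y a l = V3 c (s a) l := by
    intro a l
    rw [hy, hc]
    exact lin_second s a l
  have hyLI : LinearIndependent ℂ fun (j : Fin 2) (i : Fin 3) =>
      MvPowerSeries.coeff (Finsupp.single i 1) (y j) := by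
    have h1 : (fun (j : Fin 2) (i : Fin 3) => MvPowerSeries.coeff (Finsupp.single i 1) (y j)) =
        fun (a : Fin 2) (l : Fin 3) => V3 c (s a) l := by
      funext a l
      rw [← hylin, coeff_single_ps]
    rw [h1]
    exact hs
  obtain ⟨e, he⟩ := MPb07157SB.exists_coord (k := 2) (m := 1) (q := y) hy0 hyLI
  have he' : ∀ j, e (y j) = MvPowerSeries.X (Fin.castSucc j) := he
  by_cases hK : ∀ o, Kz 1 (e (gen F o : MvPowerSeries (Fin 3) ℂ))
  · -- ordinary triple point along a smooth curve
    right
    have hK2 : ∀ i, Kz 2 (e ((pderiv i F : MvPolynomial (Fin 3) ℂ) : MvPowerSeries (Fin 3) ℂ)) := by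
      intro i
      refine Kz.equiv_succ le_rfl e (hK (.inr (.inl i))) fun j => ?_
      rw [MvPowerSeries.pderiv_coe]
      exact hK (.inr (.inr (j, i)))
    have hK2' : Kz 2 (e (F : MvPowerSeries (Fin 3) ℂ)) := by
      refine Kz.equiv_succ le_rfl e (hK (.inl ())) fun j => ?_
      rw [MvPowerSeries.pderiv_coe]
      exact hK (.inr (.inl j))
    have hK3 : Kz 3 (e (F : MvPowerSeries (Fin 3) ℂ)) := by
      refine Kz.equiv_succ (by norm_num) e hK2' fun j => ?_
      rw [MvPowerSeries.pderiv_coe]
      exact hK2 j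
    obtain ⟨g₀, hg₀, hF₀⟩ := hK3.exists_form
    obtain ⟨g, hg⟩ : ∃ g : MvPolynomial (Fin 2) (MvPowerSeries (Fin 3) ℂ),
        g = map (e.symm : MvPowerSeries (Fin 3) ℂ →+* MvPowerSeries (Fin 3) ℂ) g₀ := ⟨_, rfl⟩
    have hgh : g.IsHomogeneous 3 := by
      rw [hg]
      exact hg₀.map _
    have hFg : (F : MvPowerSeries (Fin 3) ℂ) = eval y g := by
      have h1 : (F : MvPowerSeries (Fin 3) ℂ) = e.symm (eval
          (fun j => MvPowerSeries.X (Fin.castSucc j)) g₀) := by
        rw [← hF₀, AlgEquiv.symm_apply_apply]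
      rw [h1, hg, eval_map, eval_eq', eval₂_eq', map_sum]
      refine Finset.sum_congr rfl fun d _ => ?_
      rw [map_mul, map_prod]
      congr 1
      refine Finset.prod_congr rfl fun j _ => ?_
      rw [map_pow, ← he', AlgEquiv.symm_apply_apply]
    refine ⟨y, g, hgh, hFg, hy0, hyLI, ?_⟩
    -- the second derivatives of the tangent cone
    have hyLI' : LinearIndependent ℂ (OR.lin y) := by
      have h1 : (fun (j : Fin 2) (i : Fin 3) => MvPowerSeries.coeff (Finsupp.single i 1) (y j)) =
          OR.lin y := by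
        funext j i
        rw [coeff_single_ps]
      rw [← h1]
      exact hyLI
    have hsec : ∀ (z : Fin 3 → ℂ) (Y : Fin 2 → ℂ), (∀ j, Y j = ∑ i, z i * OR.lin y j i) →
        ∀ a i, eval z (pderiv a (pderiv i c)) = eval Y (OR.DL (OR.lin y) [a, i] (OR.cc g)) := by
      intro z Y hzY a i
      obtain ⟨g', hg'1, hg'2, hg'3⟩ := OR.exists_dl hy0 hFg [a, i] 1 hgh
      rw [← hg'3]
      have h1 : (OR.cc g').IsHomogeneous 1 := hg'1.map _
      rw [OR.eval_of_isHomogeneous_one h1, ← V3_mulVec hch z (a, i)]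
      show ∑ l, V3 c (a, i) l * z l = _
      have h2 : ∀ l, V3 c (a, i) l = ∑ b, MvPowerSeries.constantCoeff
          (coeff (Finsupp.single b 1) g') * OR.lin y b l := by
        intro l
        have h3 : V3 c (a, i) l = MvPowerSeries.constantCoeff (MvPowerSeries.pderiv ℂ l
            ((OR.dl [a, i] F : MvPolynomial (Fin 3) ℂ) : MvPowerSeries (Fin 3) ℂ)) := by
          rw [← coeff_single_ps, MvPolynomial.coeff_coe, hc]
          exact (coeff_single_second a i l).symm
        rw [h3, hg'2, OR.eval_of_isHomogeneous_one hg'1, map_sum, map_sum]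
        refine Finset.sum_congr rfl fun b _ => ?_
        rw [Derivation.leibniz, smul_eq_mul, smul_eq_mul, map_add, map_mul, map_mul, hy0, zero_mul,
          add_zero]
      simp only [h2, Finset.sum_mul]
      rw [Finset.sum_comm]
      refine Finset.sum_congr rfl fun b _ => ?_
      rw [coeff_map, hzY b, Finset.mul_sum]
      exact Finset.sum_congr rfl fun l _ => by ring
    -- a vertex
    obtain ⟨q, hq0, hqq⟩ : ∃ q : Fin 3 → ℂ, q ≠ 0 ∧ ∀ i j, eval q (pderiv i (pderiv j c)) = 0 := by
      obtain ⟨q, hq0, hq⟩ : ∃ q : Fin 3 → ℂ, q ≠ 0 ∧ (Matrix.of (OR.lin y)).mulVec q = 0 := by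
        have h1 := LinearMap.finrank_range_add_finrank_ker (Matrix.of (OR.lin y)).mulVecLin
        rw [Module.finrank_fin_fun] at h1
        have h2 : Module.finrank ℂ (LinearMap.range (Matrix.of (OR.lin y)).mulVecLin) ≤ 2 := by
          have h3 := Submodule.finrank_le (LinearMap.range (Matrix.of (OR.lin y)).mulVecLin)
          rwa [Module.finrank_fin_fun] at h3
        have h3 : LinearMap.ker (Matrix.of (OR.lin y)).mulVecLin ≠ ⊥ := by
          intro h4
          rw [h4, finrank_bot] at h1
          omega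
        obtain ⟨q, hq, hq0⟩ := Submodule.exists_mem_ne_zero_of_ne_bot h3
        exact ⟨q, hq0, hq⟩
      refine ⟨q, hq0, fun i j => ?_⟩
      rw [hsec q 0 (fun b => ?_) i j]
      · have h1 : (OR.DL (OR.lin y) [i, j] (OR.cc g)).IsHomogeneous 1 :=
          OR.isHomogeneous_DL (hgh.map _) [i, j]
        rw [OR.eval_of_isHomogeneous_one h1]
        exact Finset.sum_eq_zero fun b _ => by rw [Pi.zero_apply, mul_zero]
      · have h1 := congrFun hq b
        have h2 : ∑ l, OR.lin y b l * q l = 0 := h1
        rw [Pi.zero_apply, ← h2]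
        exact Finset.sum_congr rfl fun l _ => by ring
    obtain ⟨M, hMd, hM⟩ := T3.exists_lin hch hsq hq0 hqq
    intro Y hY
    by_contra hcon
    push Not at hcon
    obtain ⟨z, hz⟩ := OR.exists_solve hyLI' Y
    have hDD : ∀ i, eval Y (OR.DD (OR.lin y) i (OR.cc g)) = 0 := by
      intro i
      unfold OR.DD
      rw [map_sum]
      exact Finset.sum_eq_zero fun j _ => by rw [map_mul, hcon j, mul_zero]
    have hgrad : ∀ i, eval z (pderiv i c) = 0 := by
      intro i
      have h1 := congrArg (eval z) (hch.pderiv (i := i)).sum_X_mul_pderiv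
      rw [map_sum, map_nsmul] at h1
      simp only [map_mul, eval_X] at h1
      have h2 : ∑ a, z a * eval z (pderiv a (pderiv i c)) = 0 := by
        have h3 : ∀ a, eval z (pderiv a (pderiv i c)) =
            eval Y (OR.DD (OR.lin y) a (OR.DD (OR.lin y) i (OR.cc g))) := by
          intro a
          rw [hsec z Y hz a i]
          rfl
        simp only [h3]
        have h4 : (OR.DD (OR.lin y) i (OR.cc g)).IsHomogeneous 2 :=
          OR.isHomogeneous_DD (hgh.map _) i
        have h5 := congrArg (eval Y) h4.sum_X_mul_pderiv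
        rw [map_sum, map_nsmul, hDD, smul_zero] at h5
        rw [← h5]
        simp only [map_mul, eval_X]
        have h6 : ∀ a, eval Y (OR.DD (OR.lin y) a (OR.DD (OR.lin y) i (OR.cc g))) =
            ∑ j, OR.lin y j a * eval Y (pderiv j (OR.DD (OR.lin y) i (OR.cc g))) := by
          intro a
          conv_lhs => unfold OR.DD
          rw [map_sum]
          refine Finset.sum_congr rfl fun j _ => ?_
          rw [map_mul, eval_C]
          rfl
        simp only [h6, Finset.mul_sum]
        rw [Finset.sum_comm]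
        refine Finset.sum_congr rfl fun j _ => ?_
        rw [hz j, Finset.sum_mul]
        exact Finset.sum_congr rfl fun a _ => by ring
      rw [h2] at h1
      have h7 : (3 - 1 : ℕ) • eval z (pderiv i c) = 0 := h1.symm
      rw [nsmul_eq_mul] at h7
      exact (mul_eq_zero.1 h7).resolve_left (by norm_num)
    have hvert := crit_vertex hMd hM hgrad
    apply hY
    funext j
    rw [hz j, Pi.zero_apply, ← hvert (s j).1 (s j).2, ← V3_mulVec hch z (s j)]
    show _ = ∑ l, V3 c (s j) l * z l
    refine Finset.sum_congr rfl fun l _ => ?_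
    rw [hylin, mul_comm]
  · -- isolated
    left
    push Not at hK
    obtain ⟨o, ho⟩ := hK
    obtain ⟨t, U, A, B, hUAB⟩ := exists_pow_axis ho
    obtain ⟨I, hI⟩ : ∃ I : Ideal (MvPowerSeries (Fin 3) ℂ),
        I = Ideal.span (Set.range fun o => (gen F o : MvPowerSeries (Fin 3) ℂ)) := ⟨_, rfl⟩
    rw [← hI]
    have hgI : ∀ o, (gen F o : MvPowerSeries (Fin 3) ℂ) ∈ I := fun o => by
      rw [hI]
      exact Ideal.subset_span ⟨o, rfl⟩
    have hT0 : e.symm (MvPowerSeries.X 0) ∈ I := by
      have h1 : e.symm (MvPowerSeries.X 0) = y 0 := by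
        rw [AlgEquiv.symm_apply_eq]
        exact (he' 0).symm
      rw [h1, hygen]
      exact hgI _
    have hT1 : e.symm (MvPowerSeries.X 1) ∈ I := by
      have h1 : e.symm (MvPowerSeries.X 1) = y 1 := by
        rw [AlgEquiv.symm_apply_eq]
        exact (he' 1).symm
      rw [h1, hygen]
      exact hgI _
    have hT2 : e.symm (MvPowerSeries.X 2) ∈ I.radical := by
      refine ⟨t, ?_⟩
      rw [← map_pow, hUAB, map_add, map_add, map_mul, map_mul, map_mul,
        AlgEquiv.symm_apply_apply]
      exact I.add_mem (I.add_mem (I.mul_mem_left _ (hgI o)) (I.mul_mem_right _ hT0))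
        (I.mul_mem_right _ hT1)
    have hT : ∀ j : Fin 3, e.symm (MvPowerSeries.X j) ∈ I.radical := by
      intro j
      fin_cases j
      · exact Ideal.le_radical hT0
      · exact Ideal.le_radical hT1
      · exact hT2
    intro i
    have h1 : LowZ (0 + 1) (e (MvPowerSeries.X i)) := by
      intro v hv
      have hv0 : v = 0 := by
        ext l
        have h2 := Finset.single_le_sum (f := fun i => v i) (fun _ _ => Nat.zero_le _)
          (Finset.mem_univ l)
        simp only [Finsupp.coe_zero, Pi.zero_apply]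
        omega
      rw [hv0, MvPowerSeries.coeff_zero_eq_constantCoeff_apply, constantCoeff_equiv,
        MvPowerSeries.constantCoeff_X]
    obtain ⟨b, _, hb⟩ := h1.decomp
    have h2 : (MvPowerSeries.X i : MvPowerSeries (Fin 3) ℂ) =
        ∑ j, e.symm (MvPowerSeries.X j) * e.symm (b j) := by
      rw [← e.symm_apply_apply (MvPowerSeries.X i), hb, map_sum]
      exact Finset.sum_congr rfl fun j _ => by rw [map_mul]
    rw [h2]
    exact sum_mem fun j _ => I.radical.mul_mem_right _ (hT j)

end SE3

end MPb07157
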